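import Pool.Agent.Helper36.RI.Goals
import Pool.Agent.Helper67.RF.INSB

/-! # Packet BIZ (MP_c98eff_gt): symmetry of the curvature operator, second Bianchi identity -/

set_option autoImplicit false

open Finset

namespace Pool.Agent.Helper70.RI

open Pool.Agent.Helper73.RF Pool.Agent.Helper36.RI Pool.Agent.Helper36.RS
open Pool.Agent.Helper47.RF hiding eps
open Pool.Agent.Helper67.RF (dsum)

section alg

variable {B : Type} [CommRing B] [Algebra ℝ B]

/-- derivative of a rotated tensor along one frame vector -/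
theorem derT (L : Derivation ℝ B B) (R P G : Fin 3 → Fin 3 → B)
    (hR : ∀ i a, L (R i a) = ∑ d, G a d * R i d) (hG : ∀ a b, G a b = -G b a)
    (hG0 : ∀ a, G a a = 0) (i j : Fin 3) :
    L (∑ a, ∑ b, R i a * R j b * P a b) =
      ∑ a, ∑ b, R i a * R j b * (L (P a b) - ∑ d, G a d * P d b - ∑ d, G b d * P a d) := by
  simp only [Fin.sum_univ_three] at hR ⊢
  simp only [map_add, Derivation.leibniz, smul_eq_mul, hR]
  rw [hG 1 0, hG 2 0, hG 2 1, hG0, hG0, hG0]
  ring

omit [Algebra ℝ B] in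
/-- undoing a rotation -/
theorem unrot (R P : Fin 3 → Fin 3 → B)
    (hR : ∀ a b, ∑ c, R c a * R c b = if a = b then 1 else 0) (l k : Fin 3) :
    ∑ i, ∑ j, R i l * R j k * (∑ a, ∑ b, R i a * R j b * P a b) = P l k := by
  have h1 : ∑ i, ∑ j, R i l * R j k * (∑ a, ∑ b, R i a * R j b * P a b) =
      ∑ a, ∑ b, (∑ i, R i l * R i a) * (∑ j, R j k * R j b) * P a b := by
    simp only [Finset.mul_sum, Finset.sum_mul]
    rw [Finset.sum_comm]
    have h2 : ∀ j : Fin 3, ∑ i, ∑ a, ∑ b, R i l * R j k * (R i a * R j b * P a b) =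
        ∑ a, ∑ b, ∑ i, R i l * R j k * (R i a * R j b * P a b) := by
      intro j
      rw [Finset.sum_comm]
      refine Finset.sum_congr rfl fun a _ => ?_
      rw [Finset.sum_comm]
    simp only [h2]
    rw [Finset.sum_comm]
    refine Finset.sum_congr rfl fun a _ => ?_
    rw [Finset.sum_comm]
    refine Finset.sum_congr rfl fun b _ => ?_
    refine Finset.sum_congr rfl fun j _ => ?_
    refine Finset.sum_congr rfl fun i _ => ?_
    ring
  rw [h1]
  simp only [hR]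
  simp

end alg

/-- the antisymmetric symbols vanish on the diagonal -/
theorem Gam_diag {𝒜 : Type} [CommRing 𝒜] [Algebra ℝ 𝒜] (x : 𝒜) (h : x = -x) : x = 0 := by
  have h1 : (2 : ℝ) • x = 0 := by
    rw [two_smul]
    nth_rewrite 2 [h]
    simp
  have h2 : x = (1 / 2 : ℝ) • ((2 : ℝ) • x) := by
    rw [smul_smul]; norm_num
  rw [h2, h1, smul_zero]

/-- covariant derivative on the bundle -/
theorem bundle_nab (hfra : FraStmt) {T : ℝ} (Q : BA T) (hQ : Q.Ax) (A θ S0 P : Fin 3 → Fin 3 → Q.B)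
    (hF : Q.FH A θ S0) (hP : ∀ a b, Q.XT (P a b)) (c i j : Fin 3) :
    (Q.toFBD A θ S0).H c (∑ a, ∑ b, Q.R i a * Q.R j b * P a b) =
      ∑ e, Q.R c e * ∑ a, ∑ b, Q.R i a * Q.R j b * nab Q.E A θ P e a b := by
  have fra := hfra Q.B Q.E A θ ⟨hQ.EE, hF.At, hF.tA⟩
  have fra3 := fra.2.2.1
  have fra4 := fra.2.2.2.1
  set L : Fin 3 → Derivation ℝ Q.B Q.B := fun e =>
    ∑ i, A e i • Q.E i + ∑ k, FR.om Q.E A θ e k • Q.U k with hL
  have hH : ∀ f, (Q.toFBD A θ S0).H c f = ∑ e, Q.R c e * L e f := by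
    intro f
    exact dsum (Q.R c) L f
  have hLv : ∀ e f, L e f = ∑ i, A e i * Q.E i f + ∑ k, FR.om Q.E A θ e k * Q.U k f := by
    intro e f
    have h1 : L e f = (∑ i, A e i • Q.E i) f + (∑ k, FR.om Q.E A θ e k • Q.U k) f := rfl
    rw [h1, dsum, dsum]
  rw [hH]
  refine Finset.sum_congr rfl fun e _ => ?_
  congr 1
  have hR : ∀ i a, L e (Q.R i a) = ∑ d, FR.Gam Q.E A θ e a d * Q.R i d := by
    intro i a
    rw [hLv]
    simp only [hQ.ER, mul_zero, Finset.sum_const_zero, zero_add, hQ.UR]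
    have h1 : ∀ d, FR.Gam Q.E A θ e a d = ∑ k, eps k a d • FR.om Q.E A θ e k := fra4 e a
    simp only [h1, Finset.mul_sum, Finset.sum_mul]
    rw [Finset.sum_comm]
    refine Finset.sum_congr rfl fun d _ => Finset.sum_congr rfl fun k _ => ?_
    simp only [Algebra.smul_def]
    ring
  refine (derT (L e) Q.R P (fun a d => FR.Gam Q.E A θ e a d) hR (fun a b => fra3 e a b)
    (fun a => Gam_diag _ (fra3 e a a)) i j).trans ?_
  refine Finset.sum_congr rfl fun a _ => Finset.sum_congr rfl fun b _ => ?_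
  congr 1
  have h2 : L e (P a b) = FR.Fd Q.E A e (P a b) := by
    rw [hLv]
    have h3 : ∀ k, Q.U k (P a b) = 0 := (hP a b).1
    simp only [h3, mul_zero, Finset.sum_const_zero, add_zero]
    rfl
  rw [h2]
  rfl

/-- the result on the bundle -/
theorem bundle_biz (hfra : FraStmt) (hful : R_FUL) {T : ℝ} (Q : BA T) (hQ : Q.Ax)
    (A θ S0 : Fin 3 → Fin 3 → Q.B) (hF : Q.FH A θ S0) (hN : ∀ a b, Q.XT (FR.N Q.E A θ a b)) :
    (∀ l k, FR.N Q.E A θ l k = FR.N Q.E A θ k l) ∧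
    ∀ j, ∑ i, nab Q.E A θ (FR.N Q.E A θ) i i j = 0 := by
  have hfull := hful T Q hQ A θ S0 hF
  have hM : ∀ i j, ∑ l, ∑ k, Q.R i l * Q.R j k * FR.N Q.E A θ l k =
      ∑ l, ∑ k, Q.R j l * Q.R i k * FR.N Q.E A θ l k := fun i j => hfull.Msymm i j
  constructor
  · intro l k
    rw [← unrot Q.R (FR.N Q.E A θ) hQ.RtR l k, ← unrot Q.R (FR.N Q.E A θ) hQ.RtR k l,
      Finset.sum_comm]
    refine Finset.sum_congr rfl fun j _ => Finset.sum_congr rfl fun i _ => ?_
    rw [hM i j]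
    ring
  · have hb : ∀ j, ∑ i, (Q.toFBD A θ S0).H i
        (∑ a, ∑ b, Q.R i a * Q.R j b * FR.N Q.E A θ a b) = 0 := fun j => hfull.bianchi j
    have hb2 : ∀ j, ∑ i, ∑ e, Q.R i e * ∑ a, ∑ b, Q.R i a * Q.R j b *
        nab Q.E A θ (FR.N Q.E A θ) e a b = 0 := by
      intro j
      have h1 := hb j
      have h2 : ∑ i, (Q.toFBD A θ S0).H i
          (∑ a, ∑ b, Q.R i a * Q.R j b * FR.N Q.E A θ a b) = ∑ i, ∑ e, Q.R i e *
          ∑ a, ∑ b, Q.R i a * Q.R j b * nab Q.E A θ (FR.N Q.E A θ) e a b :=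
        Finset.sum_congr rfl fun i _ => bundle_nab hfra Q hQ A θ S0 _ hF hN i i j
      exact h2.symm.trans h1
    set n : Fin 3 → Fin 3 → Fin 3 → Q.B := nab Q.E A θ (FR.N Q.E A θ) with hn
    have hb3 : ∀ j, ∑ b, Q.R j b * ∑ a, n a a b = 0 := by
      intro j
      rw [← hb2 j]
      have h1 : ∀ i : Fin 3, ∑ e, Q.R i e * ∑ a, ∑ b, Q.R i a * Q.R j b * n e a b =
          ∑ b, ∑ a, ∑ e, (Q.R i e * Q.R i a) * (Q.R j b * n e a b) := by
        intro i
        simp only [Finset.mul_sum]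
        rw [Finset.sum_comm, Finset.sum_comm]
        have : ∀ e : Fin 3, ∑ a, ∑ b, Q.R i e * (Q.R i a * Q.R j b * n e a b) =
            ∑ b, ∑ a, Q.R i e * (Q.R i a * Q.R j b * n e a b) := fun e => Finset.sum_comm
        simp only [this]
        rw [Finset.sum_comm]
        refine Finset.sum_congr rfl fun b _ => ?_
        rw [Finset.sum_comm]
        refine Finset.sum_congr rfl fun a _ => Finset.sum_congr rfl fun e _ => ?_
        ring
      simp only [h1]
      rw [Finset.sum_comm]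
      refine Finset.sum_congr rfl fun b _ => ?_
      rw [Finset.sum_comm, Finset.mul_sum]
      refine Finset.sum_congr rfl fun a _ => ?_
      rw [Finset.sum_comm]
      have h2 : ∀ e : Fin 3, ∑ i, (Q.R i e * Q.R i a) * (Q.R j b * n e a b) =
          (if e = a then 1 else 0) * (Q.R j b * n e a b) := by
        intro e
        rw [← Finset.sum_mul, hQ.RtR]
      simp only [h2]
      simp
    intro k
    have h3 : ∑ j, Q.R j k * ∑ b, Q.R j b * ∑ a, n a a b = 0 := by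
      simp only [hb3, mul_zero, Finset.sum_const_zero]
    have h4 : ∀ S : Fin 3 → Q.B, ∑ j, Q.R j k * ∑ b, Q.R j b * S b =
        ∑ b, (∑ j, Q.R j k * Q.R j b) * S b := by
      intro S
      simp only [Finset.mul_sum, Finset.sum_mul]
      rw [Finset.sum_comm]
      refine Finset.sum_congr rfl fun b _ => Finset.sum_congr rfl fun j _ => ?_
      ring
    rw [h4 (fun b => ∑ a, n a a b)] at h3
    simp only [hQ.RtR] at h3
    simpa using h3

/-! ## Constant families -/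

theorem js_const (f : XS) : JS 1 (fun _ => f.1) := by
  refine ⟨?_, fun _ _ _ => f.2.hom⟩
  exact f.2.cd.comp contDiff_fst.contDiffOn (fun p hp => hp.1)

/-- the algebra homomorphism `XS → (baC 1).B` -/
noncomputable def phi : XS →ₐ[ℝ] (baC 1).B where
  toFun f := emb (fun _ => f.1) (js_const f)
  map_one' := rfl
  map_mul' _ _ := rfl
  map_zero' := rfl
  map_add' _ _ := rfl
  commutes' _ := rfl

theorem phi_E (hD6 : D6Stmt) (i : Fin 3) (f : XS) : phi (Ed i f) = (baC 1).E i (phi f) := by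
  obtain ⟨hE, h⟩ := ((hD6 1).1 _ (js_const f)).2.2.1 i
  exact h.symm

theorem phi_XT (hD6 : D6Stmt) (f : XS) : (baC 1).XT (phi f) :=
  ((hD6 1).1 _ (js_const f)).2.1

theorem phi_Dt (hD6 : D6Stmt) (f : XS) : (baC 1).Dt (phi f) = 0 := by
  obtain ⟨hD, h⟩ := ((hD6 1).1 _ (js_const f)).2.2.2 (fun _ _ => 0)
    (fun t _ _ x _ => hasDerivAt_const t (f.1 x))
  exact h

theorem phi_ev (z : (baC 1).Z) (t : TI 1) (f : XS) :
    (baC 1).ev z t (phi f) = f.1 (Prod.fst z : Metric.sphere (0 : HH) 1) := rfl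

theorem phi_inj {f g : XS} (h : phi f = phi g) {x : HH} (hx : x ≠ 0) : f.1 x = g.1 x := by
  have hm : ((x, (1 : HH), (1 / 2 : ℝ)) : W) ∈ Om 1 :=
    ⟨hx, one_ne_zero, by norm_num, by norm_num⟩
  have h1 : (phi f : BB 1).1 ⟨_, hm⟩ = (phi g : BB 1).1 ⟨_, hm⟩ := by rw [h]
  exact h1

theorem phi_Gam {𝒜 ℬ : Type} [CommRing 𝒜] [Algebra ℝ 𝒜] [CommRing ℬ] [Algebra ℝ ℬ]
    (E : Fin 3 → Derivation ℝ 𝒜 𝒜) (E' : Fin 3 → Derivation ℝ ℬ ℬ) (φ : 𝒜 →ₐ[ℝ] ℬ)
    (A θ : Fin 3 → Fin 3 → 𝒜) (h : ∀ i f, φ (E i f) = E' i (φ f)) (a b c : Fin 3) :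
    φ (FR.Gam E A θ a b c) =
      FR.Gam E' (fun a i => φ (A a i)) (fun i a => φ (θ i a)) a b c := by
  have hFd : ∀ a f, φ (FR.Fd E A a f) = FR.Fd E' (fun a i => φ (A a i)) a (φ f) := by
    intro a f
    simp only [FR.Fd, map_sum, map_mul, h]
  have hC : ∀ a b c, φ (FR.C E A θ a b c) =
      FR.C E' (fun a i => φ (A a i)) (fun i a => φ (θ i a)) a b c := by
    intro a b c
    simp only [FR.C, map_sum, map_mul, map_sub, map_add, map_smul, hFd]
  simp only [FR.Gam, map_smul, map_add, map_sub, hC]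

theorem phi_nab {𝒜 ℬ : Type} [CommRing 𝒜] [Algebra ℝ 𝒜] [CommRing ℬ] [Algebra ℝ ℬ]
    (E : Fin 3 → Derivation ℝ 𝒜 𝒜) (E' : Fin 3 → Derivation ℝ ℬ ℬ) (φ : 𝒜 →ₐ[ℝ] ℬ)
    (A θ P : Fin 3 → Fin 3 → 𝒜) (h : ∀ i f, φ (E i f) = E' i (φ f)) (c a b : Fin 3) :
    φ (nab E A θ P c a b) = nab E' (fun a i => φ (A a i)) (fun i a => φ (θ i a))
      (fun a b => φ (P a b)) c a b := by
  simp only [nab, map_sub, map_sum, map_mul, phi_Gam E E' φ A θ h]
  simp only [FR.Fd, map_sum, map_mul, h]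

theorem biz : G_BIZ := by
  intro hfra hnat _ hdax hD6 hful A θ hInv
  have hQ := hdax 1
  set A' : Fin 3 → Fin 3 → (baC 1).B := fun a i => phi (A a i) with hA'
  set θ' : Fin 3 → Fin 3 → (baC 1).B := fun i a => phi (θ i a) with hθ'
  have hInv' : ∀ x ≠ 0, ∀ i j, ∑ a, (θ i a).1 x * (A a j).1 x = if i = j then (1 : ℝ) else 0 := by
    intro x hx i j
    have h1 : (Matrix.of fun a i => (A a i).1 x) * (Matrix.of fun i a => (θ i a).1 x) = 1 := by
      ext a c
      rw [Matrix.mul_apply, Matrix.one_apply]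
      exact hInv x hx a c
    have h2 := mul_eq_one_comm.1 h1
    have h3 := congrFun (congrFun h2 i) j
    rw [Matrix.mul_apply, Matrix.one_apply] at h3
    exact h3
  have hF : (baC 1).FH A' θ' 0 := by
    refine ⟨fun a i => phi_XT hD6 _, fun i a => phi_XT hD6 _, ?_, ?_, ?_, ?_, ?_⟩
    · intro a b
      exact ⟨fun k => map_zero _, fun k => map_zero _⟩
    · intro a b
      apply hQ.ext
      intro z t
      rw [map_sum]
      simp only [map_mul, hA', hθ', phi_ev]
      rw [hInv _ (sph_ne _) a b]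
      split_ifs <;> simp
    · intro a b
      apply hQ.ext
      intro z t
      rw [map_sum]
      simp only [map_mul, hA', hθ', phi_ev]
      rw [hInv' _ (sph_ne _) a b]
      split_ifs <;> simp
    · intro a i
      rw [hA']
      simp only [phi_Dt hD6]
      simp
    · intro a b
      rfl
  have hNn : ∀ l k, phi (FR.N Ed A θ l k) = FR.N (baC 1).E A' θ' l k :=
    (hnat XS (baC 1).B Ed (baC 1).E phi A θ (phi_E hD6)).2.1
  have hN : ∀ a b, (baC 1).XT (FR.N (baC 1).E A' θ' a b) := by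
    intro a b
    rw [← hNn]
    exact phi_XT hD6 _
  obtain ⟨h1, h2⟩ := bundle_biz hfra hful (baC 1) hQ A' θ' 0 hF hN
  constructor
  · intro l k x hx
    apply phi_inj _ hx
    rw [hNn, hNn, h1]
  · intro j x hx
    have h3 : phi (∑ i, nab Ed A θ (FR.N Ed A θ) i i j) = phi 0 := by
      rw [map_sum, map_zero]
      have h4 : ∀ i, phi (nab Ed A θ (FR.N Ed A θ) i i j) =
          nab (baC 1).E A' θ' (FR.N (baC 1).E A' θ') i i j := by
        intro i
        rw [phi_nab Ed (baC 1).E phi A θ _ (phi_E hD6)]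
        simp only [hNn]
        rfl
      simp only [h4]
      exact h2 j
    exact phi_inj h3 hx

end Pool.Agent.Helper70.RI
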